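import Mathlib

set_option autoImplicit false
open Filter Topology

namespace Pool.Agent.H244Z.Dust

/-- The Cantor function of a digit sequence. -/
noncomputable def C (ε : ℕ → Bool) : ℝ :=
  ∑' m : ℕ, (if ε m then (3/4 : ℝ) * (1/4 : ℝ) ^ m else 0)

lemma summable_geom : Summable (fun m : ℕ => (3/4 : ℝ) * (1/4 : ℝ) ^ m) :=
  (summable_geometric_of_lt_one (by norm_num) (by norm_num)).mul_left _

lemma summable_C (ε : ℕ → Bool) :
    Summable (fun m : ℕ => (if ε m then (3/4 : ℝ) * (1/4 : ℝ) ^ m else 0)) := by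
  refine Summable.of_nonneg_of_le (fun m => ?_) (fun m => ?_) summable_geom
  · split_ifs <;> positivity
  · split_ifs
    · exact le_rfl
    · positivity

lemma C_nonneg (ε : ℕ → Bool) : 0 ≤ C ε :=
  tsum_nonneg (fun m => by split_ifs <;> positivity)

lemma C_le_one (ε : ℕ → Bool) : C ε ≤ 1 := by
  have h1 : ∑' m : ℕ, (3/4 : ℝ) * (1/4 : ℝ) ^ m = 1 := by
    rw [tsum_mul_left, tsum_geometric_of_lt_one (by norm_num) (by norm_num)]
    norm_num
  rw [← h1]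
  refine (summable_C ε).tsum_le_tsum (fun m => ?_) summable_geom
  split_ifs
  · exact le_rfl
  · positivity

lemma C_succ (ε : ℕ → Bool) :
    C ε = (if ε 0 then (3/4 : ℝ) else 0) + (1/4) * C (fun m => ε (m + 1)) := by
  unfold C
  rw [(summable_C ε).tsum_eq_zero_add, ← tsum_mul_left]
  congr 1
  · split_ifs <;> norm_num
  · congr 1
    funext m
    split_ifs
    · ring
    · ring

/-- The dust on the square with lower left corner `(α, β)` and side `l`. -/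
def K (α β l : ℝ) : Set (ℝ × ℝ) :=
  {z | (∃ ε, z.1 = α + l * C ε) ∧ (∃ δ, z.2 = β + l * C δ)}

lemma K_box {α β l : ℝ} (hl : 0 ≤ l) {z : ℝ × ℝ} (hz : z ∈ K α β l) :
    α ≤ z.1 ∧ z.1 ≤ α + l ∧ β ≤ z.2 ∧ z.2 ≤ β + l := by
  obtain ⟨⟨ε, h1⟩, ⟨δ, h2⟩⟩ := hz
  have := C_nonneg ε
  have := C_nonneg δ
  have := C_le_one ε
  have := C_le_one δ
  refine ⟨?_, ?_, ?_, ?_⟩ <;> nlinarith

lemma K_split (α β l : ℝ) :
    K α β l ⊆ ((K α β (l/4) ∪ K (α + 3 * l / 4) β (l/4)) ∪ K α (β + 3 * l / 4) (l/4)) ∪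
      K (α + 3 * l / 4) (β + 3 * l / 4) (l/4) := by
  rintro z ⟨⟨ε, h1⟩, ⟨δ, h2⟩⟩
  rw [C_succ] at h1 h2
  by_cases e0 : ε 0 = true <;> by_cases d0 : δ 0 = true
  · right
    simp only [e0, d0, if_true] at h1 h2
    exact ⟨⟨_, by rw [h1]; ring⟩, ⟨_, by rw [h2]; ring⟩⟩
  · left; left; right
    simp only [e0, d0, if_true] at h1 h2
    exact ⟨⟨fun m => ε (m+1), by rw [h1]; ring⟩, ⟨fun m => δ (m+1), by rw [h2]; simp; ring⟩⟩
  · left; right
    simp only [e0, d0, if_true] at h1 h2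
    exact ⟨⟨fun m => ε (m+1), by rw [h1]; simp; ring⟩, ⟨fun m => δ (m+1), by rw [h2]; ring⟩⟩
  · left; left; left
    simp only [e0, d0] at h1 h2
    exact ⟨⟨fun m => ε (m+1), by rw [h1]; simp; ring⟩, ⟨fun m => δ (m+1), by rw [h2]; simp; ring⟩⟩

/-- The order relation between two blocks. -/
def R (N : ℝ) (e e' : ℕ × ℝ × ℝ) : Prop :=
  (e.1 : ℝ) + N ≤ e'.1 ∧ e.2.1 * e.1 + N ≤ e'.2.1 * e'.1 ∧ e.2.2 * e.1 + N ≤ e'.2.2 * e'.1

/-- A covering of `S` by blocks with times in `[s, s' - N']` and corners in the box. -/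
def Cov (τ N N' : ℝ) (S : Set (ℝ × ℝ)) (α β l s s' : ℝ) : Prop :=
  ∃ L : List (ℕ × ℝ × ℝ), L.Pairwise (R N) ∧
    (∀ e ∈ L, s ≤ e.1 ∧ (e.1 : ℝ) + N' ≤ s' ∧ α ≤ e.2.1 ∧ e.2.1 ≤ α + l ∧ β ≤ e.2.2 ∧
      e.2.2 ≤ β + l) ∧
    ∀ z ∈ S, ∃ e ∈ L, (e.2.1 - z.1) * e.1 ≤ τ ∧ z.1 ≤ e.2.1 ∧ (e.2.2 - z.2) * e.1 ≤ τ ∧ z.2 ≤ e.2.2

lemma Cov.mono {τ N N' : ℝ} {S S' : Set (ℝ × ℝ)} {α β l s s' α' β' l' t t' : ℝ}
    (h : Cov τ N N' S α β l s s') (hS : S' ⊆ S) (h1 : α' ≤ α) (h2 : α + l ≤ α' + l')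
    (h3 : β' ≤ β) (h4 : β + l ≤ β' + l') (h5 : t ≤ s) (h6 : s' ≤ t') :
    Cov τ N N' S' α' β' l' t t' := by
  obtain ⟨L, hp, hb, hc⟩ := h
  refine ⟨L, hp, fun e he => ?_, fun z hz => hc z (hS hz)⟩
  obtain ⟨b1, b2, b3, b4, b5, b6⟩ := hb e he
  refine ⟨?_, ?_, ?_, ?_, ?_, ?_⟩ <;> linarith

lemma Cov.append {τ N N' a0 : ℝ} (ha0 : 0 < a0) (hN : 0 ≤ N) (hN1 : N ≤ N') (hN2 : N ≤ a0 * N')
    {S1 S2 : Set (ℝ × ℝ)} {α β l s1 s1' s2 s2' : ℝ} (hα : a0 ≤ α) (hβ : a0 ≤ β) (hl : 0 ≤ l)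
    (hs : 0 ≤ s1') (h1 : Cov τ N N' S1 α β l s1 s1') (h2 : Cov τ N N' S2 α β l s2 s2')
    (hg : s1' * (1 + l / a0) ≤ s2) (h12 : s1 ≤ s2) (h12' : s1' ≤ s2') :
    Cov τ N N' (S1 ∪ S2) α β l s1 s2' := by
  obtain ⟨L1, hp1, hb1, hc1⟩ := h1
  obtain ⟨L2, hp2, hb2, hc2⟩ := h2
  have hN' : 0 ≤ N' := le_trans hN hN1
  have hla : 0 ≤ l / a0 := by positivity
  have key : ∀ γ : ℝ, a0 ≤ γ → ∀ p p' n n' : ℝ, 0 ≤ n → n + N' ≤ s1' → p ≤ γ + l → γ ≤ p' →
      s2 ≤ n' → p * n + N ≤ p' * n' := by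
    intro γ hγ p p' n n' hn hn1 hp hp' hn'
    have hγ0 : 0 < γ := lt_of_lt_of_le ha0 hγ
    have e1 : p * n ≤ (γ + l) * n := mul_le_mul_of_nonneg_right hp hn
    have e2 : N ≤ (γ + l) * N' := le_trans hN2 (mul_le_mul_of_nonneg_right (by linarith) hN')
    have e3 : (γ + l) * (n + N') ≤ (γ + l) * s1' := mul_le_mul_of_nonneg_left hn1 (by linarith)
    have e4 : l ≤ γ * (l / a0) := by
      have : l = a0 * (l / a0) := by field_simp
      calc l = a0 * (l / a0) := this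
        _ ≤ γ * (l / a0) := mul_le_mul_of_nonneg_right hγ hla
    have e5 : (γ + l) * s1' ≤ γ * (s1' * (1 + l / a0)) := by nlinarith
    have e6 : γ * (s1' * (1 + l / a0)) ≤ γ * s2 := mul_le_mul_of_nonneg_left hg hγ0.le
    have hs2 : 0 ≤ s2 := le_trans (by positivity) hg
    have e7 : γ * s2 ≤ p' * n' := mul_le_mul hp' hn' hs2 (by linarith)
    nlinarith
  refine ⟨L1 ++ L2, ?_, ?_, ?_⟩
  · rw [List.pairwise_append]
    refine ⟨hp1, hp2, fun e he e' he' => ?_⟩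
    obtain ⟨b1, b2, b3, b4, b5, b6⟩ := hb1 e he
    obtain ⟨c1, c2, c3, c4, c5, c6⟩ := hb2 e' he'
    refine ⟨?_, key α hα _ _ _ _ (Nat.cast_nonneg _) b2 b4 c3 c1,
      key β hβ _ _ _ _ (Nat.cast_nonneg _) b2 b6 c5 c1⟩
    nlinarith
  · intro e he
    rcases List.mem_append.1 he with he | he
    · obtain ⟨b1, b2, b3, b4, b5, b6⟩ := hb1 e he
      exact ⟨b1, by linarith, b3, b4, b5, b6⟩
    · obtain ⟨b1, b2, b3, b4, b5, b6⟩ := hb2 e he
      exact ⟨by linarith, b2, b3, b4, b5, b6⟩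
  · rintro z (hz | hz)
    · obtain ⟨e, he, h⟩ := hc1 z hz
      exact ⟨e, List.mem_append_left _ he, h⟩
    · obtain ⟨e, he, h⟩ := hc2 z hz
      exact ⟨e, List.mem_append_right _ he, h⟩

/-- Gluing the four children, given as coverings of the four sub-dusts at successive times. -/
lemma Cov.four {τ N N' a0 : ℝ} (ha0 : 0 < a0) (hN : 0 ≤ N) (hN1 : N ≤ N') (hN2 : N ≤ a0 * N')
    {α β l s1 s1' s2 s2' s3 s3' s4 s4' : ℝ} (hα : a0 ≤ α) (hβ : a0 ≤ β) (hl : 0 ≤ l)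
    (hs : 0 ≤ s1)
    (h1 : Cov τ N N' (K α β (l/4)) α β (l/4) s1 s1')
    (h2 : Cov τ N N' (K (α + 3 * l / 4) β (l/4)) (α + 3 * l / 4) β (l/4) s2 s2')
    (h3 : Cov τ N N' (K α (β + 3 * l / 4) (l/4)) α (β + 3 * l / 4) (l/4) s3 s3')
    (h4 : Cov τ N N' (K (α + 3 * l / 4) (β + 3 * l / 4) (l/4)) (α + 3 * l / 4) (β + 3 * l / 4)
      (l/4) s4 s4')
    (o1 : s1 ≤ s1') (o2 : s2 ≤ s2') (o3 : s3 ≤ s3') (o4 : s4 ≤ s4')
    (g1 : s1' * (1 + l / a0) ≤ s2) (g2 : s2' * (1 + l / a0) ≤ s3) (g3 : s3' * (1 + l / a0) ≤ s4) :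
    Cov τ N N' (K α β l) α β l s1 s4' := by
  have hla : 0 ≤ l / a0 := by positivity
  have p1 : 0 ≤ s1' := by linarith
  have q1 : s1' ≤ s2 := by nlinarith
  have p2 : 0 ≤ s2' := by linarith
  have q2 : s2' ≤ s3 := by nlinarith
  have p3 : 0 ≤ s3' := by linarith
  have q3 : s3' ≤ s4 := by nlinarith
  have k1 : Cov τ N N' (K α β (l/4)) α β l s1 s1' :=
    h1.mono subset_rfl le_rfl (by linarith) le_rfl (by linarith) le_rfl le_rfl
  have k2 : Cov τ N N' (K (α + 3 * l / 4) β (l/4)) α β l s2 s2' :=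
    h2.mono subset_rfl (by linarith) (by linarith) le_rfl (by linarith) le_rfl le_rfl
  have k3 : Cov τ N N' (K α (β + 3 * l / 4) (l/4)) α β l s3 s3' :=
    h3.mono subset_rfl le_rfl (by linarith) (by linarith) (by linarith) le_rfl le_rfl
  have k4 : Cov τ N N' (K (α + 3 * l / 4) (β + 3 * l / 4) (l/4)) α β l s4 s4' :=
    h4.mono subset_rfl (by linarith) (by linarith) (by linarith) (by linarith) le_rfl le_rfl
  have m2 := Cov.append ha0 hN hN1 hN2 hα hβ hl p1 k1 k2 g1 (by linarith) (by linarith)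
  have m3 := Cov.append ha0 hN hN1 hN2 hα hβ hl p2 m2 k3 g2 (by linarith) (by linarith)
  have m4 := Cov.append ha0 hN hN1 hN2 hα hβ hl p3 m3 k4 g3 (by linarith) (by linarith)
  exact m4.mono (K_split α β l) le_rfl le_rfl le_rfl le_rfl le_rfl le_rfl

lemma Cov.leaf {τ N N' α β l s s' : ℝ} (hl : 0 ≤ l) (hs : 0 ≤ s) (h1 : l * (s + 1) ≤ τ)
    (h2 : s + 1 + N' ≤ s') : Cov τ N N' (K α β l) α β l s s' := by
  have c1 : s ≤ (⌈s⌉₊ : ℝ) := Nat.le_ceil s
  have c2 : (⌈s⌉₊ : ℝ) ≤ s + 1 := (Nat.ceil_lt_add_one hs).le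
  refine ⟨[(⌈s⌉₊, α + l, β + l)], List.pairwise_singleton _ _, ?_, ?_⟩
  · intro e he
    rw [List.mem_singleton] at he
    subst he
    refine ⟨c1, by simp only; linarith, by simp only; linarith, le_rfl, by simp only; linarith,
      le_rfl⟩
  · intro z hz
    obtain ⟨b1, b2, b3, b4⟩ := K_box hl hz
    refine ⟨_, List.mem_singleton.2 rfl, ?_, b2, ?_, b4⟩
    · simp only
      calc (α + l - z.1) * (⌈s⌉₊ : ℝ) ≤ l * (s + 1) :=
            mul_le_mul (by linarith) c2 (Nat.cast_nonneg _) hl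
        _ ≤ τ := h1
    · simp only
      calc (β + l - z.2) * (⌈s⌉₊ : ℝ) ≤ l * (s + 1) :=
            mul_le_mul (by linarith) c2 (Nat.cast_nonneg _) hl
        _ ≤ τ := h1

/-- The quantitative covering lemma. -/
lemma cov_fuel {τ N N' a0 A : ℝ} (hτ : 0 < τ) (ha0 : 0 < a0) (hN : 0 ≤ N) (hN1 : N ≤ N')
    (hN2 : N ≤ a0 * N') (hA : 8 * (N' + 1) ≤ τ * A) (k : ℕ) :
    ∀ α β l s : ℝ, a0 ≤ α → a0 ≤ β → 0 < l → 1 ≤ s → τ ≤ 8 * l * s →
      l * (1/4) ^ k * (s * Real.exp (l * (A + 3 / a0 * k))) ≤ τ →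
      Cov τ N N' (K α β l) α β l s (s * Real.exp (l * (A + 3 / a0 * k))) := by
  have hN' : 0 ≤ N' := le_trans hN hN1
  have hA0 : 0 < A := by
    by_contra hc
    push Not at hc
    nlinarith
  have leafend : ∀ l s x : ℝ, 0 < l → 1 ≤ s → τ ≤ 8 * l * s → 0 ≤ x →
      s + 1 + N' ≤ s * Real.exp (l * (A + x)) := by
    intro l s x hl hs h8 hx
    have e1 : l * (A + x) + 1 ≤ Real.exp (l * (A + x)) := Real.add_one_le_exp _
    have e2 : s * (l * (A + x) + 1) ≤ s * Real.exp (l * (A + x)) :=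
      mul_le_mul_of_nonneg_left e1 (by linarith)
    have e3 : τ * A ≤ 8 * l * s * A := mul_le_mul_of_nonneg_right h8 hA0.le
    have e4 : 0 ≤ s * l * x := by positivity
    nlinarith
  induction k with
  | zero =>
    intro α β l s hα hβ hl hs h8 hf
    have e := leafend l s (3 / a0 * (0 : ℕ)) hl hs h8 (by positivity)
    refine Cov.leaf hl.le (by linarith) ?_ e
    have : l * (s + 1) ≤ l * (s * Real.exp (l * (A + 3 / a0 * (0 : ℕ)))) :=
      mul_le_mul_of_nonneg_left (by linarith) hl.le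
    simp only [pow_zero, mul_one] at hf
    linarith
  | succ k ih =>
    intro α β l s hα hβ hl hs h8 hf
    by_cases hleaf : l * (s + 1) ≤ τ
    · exact Cov.leaf hl.le (by linarith) hleaf
        (leafend l s (3 / a0 * (k + 1 : ℕ)) hl hs h8 (by positivity))
    push Not at hleaf
    set E := Real.exp (l / 4 * (A + 3 / a0 * k)) with hE
    set G := Real.exp (l / a0) with hG
    have hE1 : 1 ≤ E := Real.one_le_exp (by positivity)
    have hG1 : 1 ≤ G := Real.one_le_exp (by positivity)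
    have hG2 : 1 + l / a0 ≤ G := by
      have := Real.add_one_le_exp (l / a0)
      linarith
    have htot : Real.exp (l * (A + 3 / a0 * (k + 1 : ℕ))) = E * G * E * G * E * G * E := by
      simp only [hE, hG, ← Real.exp_add]
      congr 1
      push_cast
      ring
    rw [htot] at hf ⊢
    have child : ∀ α' β' t : ℝ, a0 ≤ α' → a0 ≤ β' → s ≤ t → t * E ≤ s * (E * G * E * G * E * G * E) →
        Cov τ N N' (K α' β' (l/4)) α' β' (l/4) t (t * E) := by
      intro α' β' t h1 h2 h3 h4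
      refine ih α' β' (l/4) t h1 h2 (by positivity) (by linarith) (by nlinarith) ?_
      have e1 : l / 4 * (1/4) ^ k * (t * E) ≤ l / 4 * (1/4) ^ k * (s * (E * G * E * G * E * G * E)) :=
        mul_le_mul_of_nonneg_left h4 (by positivity)
      have e2 : l / 4 * (1/4 : ℝ) ^ k = l * (1/4) ^ (k + 1) := by ring
      rw [e2] at e1 ⊢
      exact le_trans e1 hf
    have hs0 : 0 ≤ s := by linarith
    have hEG : 1 ≤ E * G := one_le_mul_of_one_le_of_one_le hE1 hG1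
    have hEG2 : 1 ≤ E * G * (E * G) := one_le_mul_of_one_le_of_one_le hEG hEG
    have hEG3 : 1 ≤ E * G * (E * G) * (E * G) := one_le_mul_of_one_le_of_one_le hEG2 hEG
    have hsE : 0 ≤ s * E := by positivity
    have c1 := child α β s hα hβ le_rfl (by nlinarith)
    have c2 := child (α + 3 * l / 4) β (s * (E * G)) (by linarith) hβ (by nlinarith)
      (by have : 0 ≤ s * E * (E * G) := by positivity
          nlinarith)
    have c3 := child α (β + 3 * l / 4) (s * (E * G * (E * G))) hα (by linarith) (by nlinarith)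
      (by have : 0 ≤ s * E * (E * G * (E * G)) := by positivity
          nlinarith)
    have c4 := child (α + 3 * l / 4) (β + 3 * l / 4) (s * (E * G * (E * G) * (E * G)))
      (by linarith) (by linarith) (by nlinarith) (by apply le_of_eq; ring)
    have fin := Cov.four ha0 hN hN1 hN2 hα hβ hl.le hs0 c1 c2 c3 c4
      (by nlinarith)
      (by have : 0 ≤ s * (E * G) := by positivity
          nlinarith)
      (by have : 0 ≤ s * (E * G * (E * G)) := by positivity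
          nlinarith)
      (by have : 0 ≤ s * (E * G * (E * G) * (E * G)) := by positivity
          nlinarith)
      (by calc s * E * (1 + l / a0) ≤ s * E * G := mul_le_mul_of_nonneg_left hG2 hsE
            _ = s * (E * G) := by ring)
      (by calc s * (E * G) * E * (1 + l / a0) ≤ s * (E * G) * E * G :=
              mul_le_mul_of_nonneg_left hG2 (by positivity)
            _ = s * (E * G * (E * G)) := by ring)
      (by calc s * (E * G * (E * G)) * E * (1 + l / a0) ≤ s * (E * G * (E * G)) * E * G :=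
              mul_le_mul_of_nonneg_left hG2 (by positivity)
            _ = s * (E * G * (E * G) * (E * G)) := by ring)
    exact fin.mono subset_rfl le_rfl le_rfl le_rfl le_rfl le_rfl (by apply le_of_eq; ring)

/-- Small dusts can be covered starting at any time. -/
lemma cov_small {τ N N' a0 : ℝ} (hτ : 0 < τ) (ha0 : 0 < a0) (hN : 0 ≤ N) (hN1 : N ≤ N')
    (hN2 : N ≤ a0 * N') {α β l : ℝ} (hα : a0 ≤ α) (hβ : a0 ≤ β) (hl : 0 < l)
    (hsm : l * (3 / a0) ≤ 1) (s : ℝ) : ∃ s', s ≤ s' ∧ Cov τ N N' (K α β l) α β l s s' := by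
  set A := 8 * (N' + 1) / τ with hA
  have hA' : 8 * (N' + 1) ≤ τ * A := by
    rw [hA]; apply le_of_eq; field_simp
  set t := max (max s 1) (τ / (8 * l)) with ht
  have ht1 : 1 ≤ t := le_trans (le_max_right _ _) (le_max_left _ _)
  have hts : s ≤ t := le_trans (le_max_left _ _) (le_max_left _ _)
  have ht8 : τ ≤ 8 * l * t := by
    have : τ / (8 * l) ≤ t := le_max_right _ _
    rw [div_le_iff₀ (by positivity)] at this
    linarith
  set ρ := Real.exp (l * (3 / a0)) / 4 with hρ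
  have hρ0 : 0 ≤ ρ := by positivity
  have hρ1 : ρ < 1 := by
    have h1 : Real.exp (l * (3 / a0)) ≤ Real.exp 1 := Real.exp_le_exp.2 hsm
    have h2 := Real.exp_one_lt_d9
    rw [hρ]
    linarith
  have lim : Tendsto (fun k : ℕ => l * t * Real.exp (l * A) * ρ ^ k) atTop (𝓝 0) := by
    have := (tendsto_pow_atTop_nhds_zero_of_lt_one hρ0 hρ1).const_mul (l * t * Real.exp (l * A))
    simpa using this
  obtain ⟨k, hk⟩ := (lim.eventually (ge_mem_nhds hτ)).exists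
  have heq : l * (1/4) ^ k * (t * Real.exp (l * (A + 3 / a0 * k))) =
      l * t * Real.exp (l * A) * ρ ^ k := by
    have e1 : ρ ^ k = Real.exp (k * (l * (3 / a0))) * (1/4) ^ k := by
      rw [Real.exp_nat_mul, ← mul_pow, hρ]
      congr 1
      ring
    have e2 : l * (A + 3 / a0 * k) = l * A + k * (l * (3 / a0)) := by ring
    rw [e1, e2, Real.exp_add]
    ring
  have hc := cov_fuel hτ ha0 hN hN1 hN2 hA' k α β l t hα hβ hl ht1 ht8 (by rw [heq]; exact hk)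
  have hA0 : 0 ≤ A := by
    have : 0 ≤ N' := le_trans hN hN1
    rw [hA]; positivity
  have h1 : 1 ≤ Real.exp (l * (A + 3 / a0 * k)) := Real.one_le_exp (by positivity)
  exact ⟨_, by nlinarith, hc.mono subset_rfl le_rfl le_rfl le_rfl le_rfl hts le_rfl⟩

lemma cov_level {τ N N' a0 : ℝ} (hτ : 0 < τ) (ha0 : 0 < a0) (hN : 0 ≤ N) (hN1 : N ≤ N')
    (hN2 : N ≤ a0 * N') (J : ℕ) : ∀ α β l : ℝ, a0 ≤ α → a0 ≤ β → 0 < l →
      l * (1/4) ^ J * (3 / a0) ≤ 1 → ∀ s : ℝ, 0 ≤ s →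
      ∃ s', s ≤ s' ∧ Cov τ N N' (K α β l) α β l s s' := by
  induction J with
  | zero =>
    intro α β l hα hβ hl hsm s _
    exact cov_small hτ ha0 hN hN1 hN2 hα hβ hl (by simpa using hsm) s
  | succ J ih =>
    intro α β l hα hβ hl hsm s hs
    have hsm' : l / 4 * (1/4) ^ J * (3 / a0) ≤ 1 := by
      have e2 : l / 4 * (1/4 : ℝ) ^ J = l * (1/4) ^ (J + 1) := by ring
      rw [e2]; exact hsm
    have hl4 : 0 < l / 4 := by positivity
    have hla : 0 ≤ 1 + l / a0 := by positivity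
    obtain ⟨s1', o1, c1⟩ := ih α β (l/4) hα hβ hl4 hsm' s hs
    have p1 : 0 ≤ s1' * (1 + l / a0) := mul_nonneg (by linarith) hla
    obtain ⟨s2', o2, c2⟩ := ih (α + 3 * l / 4) β (l/4) (by linarith) hβ hl4 hsm' _ p1
    have p2 : 0 ≤ s2' * (1 + l / a0) := mul_nonneg (by linarith) hla
    obtain ⟨s3', o3, c3⟩ := ih α (β + 3 * l / 4) (l/4) hα (by linarith) hl4 hsm' _ p2
    have p3 : 0 ≤ s3' * (1 + l / a0) := mul_nonneg (by linarith) hla
    obtain ⟨s4', o4, c4⟩ := ih (α + 3 * l / 4) (β + 3 * l / 4) (l/4) (by linarith) (by linarith)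
      hl4 hsm' _ p3
    have fin := Cov.four ha0 hN hN1 hN2 hα hβ hl.le hs c1 c2 c3 c4 o1 o2 o3 o4 le_rfl le_rfl le_rfl
    refine ⟨max s s4', le_max_left _ _, ?_⟩
    exact fin.mono subset_rfl le_rfl le_rfl le_rfl le_rfl le_rfl (le_max_right _ _)

/-- Every dust can be covered starting at any time. -/
lemma cov_all {τ N a b h : ℝ} (hτ : 0 < τ) (hN : 0 ≤ N) (ha : 0 < a) (hb : 0 < b) (hh : 0 < h)
    (s : ℝ) (hs : 0 ≤ s) : ∃ s', Cov τ N 0 (K a b h) a b h s s' := by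
  set a0 := min a b with ha0def
  have ha0 : 0 < a0 := lt_min ha hb
  have lim : Tendsto (fun J : ℕ => h * (1/4 : ℝ) ^ J * (3 / a0)) atTop (𝓝 0) := by
    have := ((tendsto_pow_atTop_nhds_zero_of_lt_one (r := (1/4 : ℝ)) (by norm_num)
      (by norm_num)).const_mul h).mul_const (3 / a0)
    simpa using this
  obtain ⟨J, hJ⟩ := (lim.eventually (ge_mem_nhds one_pos)).exists
  have hq : 0 ≤ N / a0 := by positivity
  obtain ⟨s', _, L, hp, hbx, hc⟩ := cov_level (N' := N + N / a0) hτ ha0 hN (by linarith)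
    (by have : a0 * (N / a0) = N := by field_simp
        nlinarith) J a b h (min_le_left _ _) (min_le_right _ _) hh hJ s hs
  refine ⟨s', L, hp, fun e he => ?_, hc⟩
  obtain ⟨b1, b2, b3, b4, b5, b6⟩ := hbx e he
  exact ⟨b1, by linarith, b3, b4, b5, b6⟩

end Pool.Agent.H244Z.Dust
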