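import Pool.Agent.H244Z.DustCover

set_option autoImplicit false
open Filter Topology
open scoped ZeroAtInfty

namespace Pool.Agent.H244Z.Dust

/-- A finitely supported sequence as an element of `c₀`. -/
noncomputable def mkC0 (f : ℕ → ℂ × ℂ) (M : ℕ) (hf : ∀ m, M ≤ m → f m = 0) : C₀(ℕ, ℂ × ℂ) :=
  ⟨⟨f, continuous_of_discreteTopology⟩, by
    rw [Filter.cocompact_eq_cofinite, Nat.cofinite_eq_atTop]
    exact tendsto_const_nhds.congr' ((eventually_ge_atTop M).mono fun m hm => (hf m hm).symm)⟩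

lemma mkC0_apply (f : ℕ → ℂ × ℂ) (M : ℕ) (hf : ∀ m, M ≤ m → f m = 0) (m : ℕ) :
    mkC0 f M hf m = f m := rfl

lemma dist_le_of_forall {z w : C₀(ℕ, ℂ × ℂ)} {r : ℝ} (hr : 0 ≤ r)
    (h : ∀ m, ‖z m - w m‖ ≤ r) : dist z w ≤ r := by
  rw [← ZeroAtInftyContinuousMap.dist_toBCF_eq_dist, BoundedContinuousFunction.dist_le hr]
  intro m
  rw [dist_eq_norm]
  exact h m

lemma norm_sub_le_dist (z w : C₀(ℕ, ℂ × ℂ)) (m : ℕ) : ‖z m - w m‖ ≤ dist z w := by
  rw [← ZeroAtInftyContinuousMap.dist_toBCF_eq_dist, ← dist_eq_norm]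
  exact BoundedContinuousFunction.dist_coe_le_dist (f := z.toBCF) (g := w.toBCF) m

lemma tendsto_C0 (z : C₀(ℕ, ℂ × ℂ)) : Tendsto z atTop (𝓝 0) := by
  have := z.zero_at_infty'
  rw [Filter.cocompact_eq_cofinite, Nat.cofinite_eq_atTop] at this
  exact this

/-- Vectors whose orbits come `η`-close to the target `t` for all parameters in `S`. -/
def U (S : Set (ℝ × ℝ)) (t : ℕ → ℂ × ℂ) (η : ℝ) : Set C₀(ℕ, ℂ × ℂ) :=
  {z | ∀ p ∈ S, ∃ k : ℕ, ∀ i : ℕ,
    ‖((Real.exp ((k : ℝ) * p.1) : ℝ) : ℂ) * (z (i + k)).1 - (t i).1‖ ≤ η ∧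
    ‖((Real.exp ((k : ℝ) * p.2) : ℝ) : ℂ) * (z (i + k)).2 - (t i).2‖ ≤ η}

lemma main_est {x p n τ B : ℝ} (u : ℂ) (hn : 0 ≤ n) (h1 : (p - x) * n ≤ τ) (h2 : x ≤ p)
    (hu : ‖u‖ ≤ B) :
    ‖((Real.exp (n * x) : ℝ) : ℂ) * (((Real.exp (-(p * n)) : ℝ) : ℂ) * u) - u‖ ≤ τ * B := by
  have e : ((Real.exp (n * x) : ℝ) : ℂ) * (((Real.exp (-(p * n)) : ℝ) : ℂ) * u) - u =
      ((Real.exp (-((p - x) * n)) - 1 : ℝ) : ℂ) * u := by
    have : Real.exp (-((p - x) * n)) = Real.exp (n * x) * Real.exp (-(p * n)) := by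
      rw [← Real.exp_add]; congr 1; ring
    rw [this]
    push_cast
    ring
  rw [e, norm_mul, Complex.norm_real, Real.norm_eq_abs]
  have hy : 0 ≤ (p - x) * n := mul_nonneg (by linarith) hn
  have a1 : Real.exp (-((p - x) * n)) ≤ 1 := Real.exp_le_one_iff.2 (by linarith)
  have a2 := Real.add_one_le_exp (-((p - x) * n))
  have a3 : |Real.exp (-((p - x) * n)) - 1| ≤ τ := by
    rw [abs_le]; constructor <;> linarith
  exact mul_le_mul a3 hu (norm_nonneg _) (by linarith)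

lemma tail_est {x y c B : ℝ} (u : ℂ) (h : x + c ≤ y) (hu : ‖u‖ ≤ B) :
    ‖((Real.exp x : ℝ) : ℂ) * (((Real.exp (-y) : ℝ) : ℂ) * u)‖ ≤ Real.exp (-c) * B := by
  rw [← mul_assoc, ← Complex.ofReal_mul, ← Real.exp_add, norm_mul, Complex.norm_real,
    Real.norm_eq_abs, abs_of_pos (Real.exp_pos _)]
  exact mul_le_mul (Real.exp_le_exp.2 (by linarith)) hu (norm_nonneg _) (Real.exp_pos _).le

lemma pert_est {y Y ρ η : ℝ} (w w' u : ℂ) (hy : y ≤ Y) (h1 : ‖w' - w‖ ≤ ρ)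
    (h2 : ‖((Real.exp y : ℝ) : ℂ) * w - u‖ ≤ η) :
    ‖((Real.exp y : ℝ) : ℂ) * w' - u‖ ≤ η + Real.exp Y * ρ := by
  have e : ((Real.exp y : ℝ) : ℂ) * w' - u =
      (((Real.exp y : ℝ) : ℂ) * w - u) + ((Real.exp y : ℝ) : ℂ) * (w' - w) := by ring
  rw [e]
  refine le_trans (norm_add_le _ _) (add_le_add h2 ?_)
  rw [norm_mul, Complex.norm_real, Real.norm_eq_abs, abs_of_pos (Real.exp_pos _)]
  exact mul_le_mul (Real.exp_le_exp.2 hy) h1 (norm_nonneg _) (Real.exp_pos _).le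

lemma exists_exp_small {c B r : ℝ} (hc : 0 < c) (hr : 0 < r) :
    ∀ᶠ n : ℕ in atTop, Real.exp (-(c * n)) * B ≤ r := by
  have h1 : Tendsto (fun n : ℕ => c * (n : ℝ)) atTop atTop :=
    tendsto_natCast_atTop_atTop.const_mul_atTop hc
  have h2 : Tendsto (fun n : ℕ => Real.exp (-(c * n)) * B) atTop (𝓝 (0 * B)) :=
    (Real.tendsto_exp_neg_atTop_nhds_zero.comp h1).mul_const B
  rw [zero_mul] at h2
  exact h2.eventually (ge_mem_nhds hr)

lemma dense_U {a b h : ℝ} (ha : 0 < a) (hb : 0 < b) (hh : 0 < h) (t : ℕ → ℂ × ℂ) (N0 : ℕ)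
    (ht : ∀ i, N0 ≤ i → t i = 0) {η : ℝ} (hη : 0 < η) :
    Dense (interior (U (K a b h) t η)) := by
  classical
  rw [Metric.dense_iff]
  intro z0 r hr
  obtain ⟨B, hB0, hB⟩ : ∃ B : ℝ, 0 < B ∧ ∀ i, ‖t i‖ ≤ B := by
    refine ⟨1 + ∑ i ∈ Finset.range N0, ‖t i‖, by positivity, fun i => ?_⟩
    have hs : 0 ≤ ∑ i ∈ Finset.range N0, ‖t i‖ := by positivity
    by_cases hi : i < N0
    · have := Finset.single_le_sum (f := fun i => ‖t i‖) (fun i _ => norm_nonneg _)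
        (Finset.mem_range.2 hi)
      linarith
    · rw [ht i (not_lt.1 hi), norm_zero]; linarith
  have hB1 : ∀ i, ‖(t i).1‖ ≤ B := fun i => le_trans (norm_fst_le _) (hB i)
  have hB2 : ∀ i, ‖(t i).2‖ ≤ B := fun i => le_trans (norm_snd_le _) (hB i)
  obtain ⟨N, hN0, hN1, hNe⟩ : ∃ N : ℕ, N0 ≤ N ∧ 1 ≤ N ∧ Real.exp (-(N : ℝ)) * B ≤ η / 2 := by
    obtain ⟨N, h1, h2, h3⟩ := ((eventually_ge_atTop N0).and ((eventually_ge_atTop 1).and
      (exists_exp_small (c := 1) (B := B) one_pos (half_pos hη)))).exists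
    exact ⟨N, h1, h2, by simpa using h3⟩
  obtain ⟨s0, hs1, hsa, hsb⟩ : ∃ s0 : ℕ, (∀ m, s0 ≤ m → ‖z0 m‖ ≤ r / 4) ∧
      Real.exp (-(a * s0)) * B ≤ r / 4 ∧ Real.exp (-(b * s0)) * B ≤ r / 4 := by
    have h1 : ∀ᶠ m : ℕ in atTop, ‖z0 m‖ ≤ r / 4 := by
      have := (tendsto_C0 z0).norm
      rw [norm_zero] at this
      exact this.eventually (ge_mem_nhds (by positivity))
    obtain ⟨M, hM⟩ := eventually_atTop.1 h1
    obtain ⟨s0, h1, h2, h3⟩ := ((eventually_ge_atTop M).and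
      ((exists_exp_small (c := a) (B := B) (r := r / 4) ha (by positivity)).and
      (exists_exp_small (c := b) (B := B) (r := r / 4) hb (by positivity)))).exists
    exact ⟨s0, fun m hm => hM m (le_trans h1 hm), h2, h3⟩
  obtain ⟨s', L, hp, hbx, hc⟩ := cov_all (τ := η / (2 * B)) (N := (N : ℝ)) (by positivity)
    (Nat.cast_nonneg _) ha hb hh (s0 : ℝ) (Nat.cast_nonneg _)
  have tri : ∀ e ∈ L, ∀ e' ∈ L, e = e' ∨ R N e e' ∨ R N e' e := by
    have hp' : L.Pairwise (fun e e' => e = e' ∨ R N e e' ∨ R N e' e) :=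
      hp.imp (fun h => Or.inr (Or.inl h))
    intro e he e' he'
    exact List.Pairwise.forall_of_forall_of_flip (R := fun e e' => e = e' ∨ R N e e' ∨ R N e' e)
      (fun x _ => Or.inl rfl) hp' (hp.imp (fun h => Or.inr (Or.inr h))) he he'
  let blk : ℕ × ℝ × ℝ → ℕ → ℂ × ℂ := fun e i =>
    (((Real.exp (-(e.2.1 * e.1)) : ℝ) : ℂ) * (t i).1, ((Real.exp (-(e.2.2 * e.1)) : ℝ) : ℂ) * (t i).2)
  let f : ℕ → ℂ × ℂ := fun m =>
    if hm : ∃ e ∈ L, e.1 ≤ m ∧ m < e.1 + N then blk hm.choose (m - hm.choose.1)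
    else if m < s0 then z0 m else 0
  have F2 : ∀ m, (∃ e ∈ L, e.1 ≤ m ∧ m < e.1 + N ∧ f m = blk e (m - e.1)) ∨
      ((¬ ∃ e ∈ L, e.1 ≤ m ∧ m < e.1 + N) ∧ f m = if m < s0 then z0 m else 0) := by
    intro m
    by_cases hm : ∃ e ∈ L, e.1 ≤ m ∧ m < e.1 + N
    · left
      obtain ⟨h1, h2, h3⟩ := hm.choose_spec
      exact ⟨hm.choose, h1, h2, h3, dif_pos hm⟩
    · right
      exact ⟨hm, dif_neg hm⟩
  have F1 : ∀ e ∈ L, ∀ i, i < N → f (i + e.1) = blk e i := by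
    intro e he i hi
    rcases F2 (i + e.1) with ⟨e', he', h1, h2, h3⟩ | ⟨h1, _⟩
    · rcases tri e he e' he' with h | h | h
      · subst h
        rw [h3, Nat.add_sub_cancel]
      · have := h.1
        have : e.1 + N ≤ e'.1 := by exact_mod_cast this
        omega
      · have := h.1
        have : e'.1 + N ≤ e.1 := by exact_mod_cast this
        omega
    · exact absurd ⟨e, he, by omega, by omega⟩ h1
  have hs0 : ∀ e ∈ L, s0 ≤ e.1 := fun e he => by exact_mod_cast (hbx e he).1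
  have hf0 : ∀ m, max s0 (⌈s'⌉₊ + N) ≤ m → f m = 0 := by
    intro m hm
    have m1 : s0 ≤ m := le_trans (le_max_left _ _) hm
    have m2 : ⌈s'⌉₊ + N ≤ m := le_trans (le_max_right _ _) hm
    rcases F2 m with ⟨e', he', h1, h2, h3⟩ | ⟨_, h2⟩
    · have b2 := (hbx e' he').2.1
      have : (e'.1 : ℝ) ≤ (⌈s'⌉₊ : ℝ) := by linarith [Nat.le_ceil s']
      have : e'.1 ≤ ⌈s'⌉₊ := by exact_mod_cast this
      omega
    · rw [h2, if_neg (by omega)]
  let z := mkC0 f _ hf0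
  have hz : ∀ m, z m = f m := fun m => rfl
  have blk_small : ∀ e ∈ L, ∀ i, ‖blk e i‖ ≤ r / 4 := by
    intro e he i
    obtain ⟨b1, b2, b3, b4, b5, b6⟩ := hbx e he
    have hs0' : (0 : ℝ) ≤ s0 := Nat.cast_nonneg _
    rw [Prod.norm_def, max_le_iff]
    constructor
    · have := tail_est (x := 0) (y := e.2.1 * e.1) (c := a * s0) (t i).1
        (by rw [zero_add]; exact mul_le_mul b3 b1 hs0' (by linarith)) (hB1 i)
      simp only [Real.exp_zero, Complex.ofReal_one, one_mul] at this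
      exact le_trans this hsa
    · have := tail_est (x := 0) (y := e.2.2 * e.1) (c := b * s0) (t i).2
        (by rw [zero_add]; exact mul_le_mul b5 b1 hs0' (by linarith)) (hB2 i)
      simp only [Real.exp_zero, Complex.ofReal_one, one_mul] at this
      exact le_trans this hsb
  have hdist : dist z z0 ≤ r / 2 := by
    refine dist_le_of_forall (by positivity) (fun m => ?_)
    rw [hz]
    rcases F2 m with ⟨e', he', h1, h2, h3⟩ | ⟨_, h2⟩
    · have := hs1 m (le_trans (hs0 e' he') h1)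
      have h4 := blk_small e' he' (m - e'.1)
      rw [h3]
      linarith [norm_sub_le (blk e' (m - e'.1)) (z0 m)]
    · rw [h2]
      split_ifs with h5
      · rw [sub_self, norm_zero]; positivity
      · rw [zero_sub, norm_neg]
        linarith [hs1 m (not_lt.1 h5)]
  have core : ∀ p ∈ K a b h, ∃ k : ℕ, (k : ℝ) ≤ s' ∧ ∀ i : ℕ,
      ‖((Real.exp ((k : ℝ) * p.1) : ℝ) : ℂ) * (z (i + k)).1 - (t i).1‖ ≤ η / 2 ∧
      ‖((Real.exp ((k : ℝ) * p.2) : ℝ) : ℂ) * (z (i + k)).2 - (t i).2‖ ≤ η / 2 := by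
    intro p hpK
    obtain ⟨e, he, c1, c2, c3, c4⟩ := hc p hpK
    refine ⟨e.1, by linarith [(hbx e he).2.1], fun i => ?_⟩
    have hτ : η / (2 * B) * B = η / 2 := by field_simp
    have hn : (0 : ℝ) ≤ e.1 := Nat.cast_nonneg _
    rw [hz]
    by_cases hi : i < N
    · rw [F1 e he i hi]
      exact ⟨hτ ▸ main_est _ hn c1 c2 (hB1 i), hτ ▸ main_est _ hn c3 c4 (hB2 i)⟩
    · rw [ht i (by omega)]
      simp only [Prod.fst_zero, Prod.snd_zero, sub_zero]
      rcases F2 (i + e.1) with ⟨e', he', h1, h2, h3⟩ | ⟨_, h2⟩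
      · rw [h3]
        rcases tri e he e' he' with h | h | h
        · subst h; omega
        · obtain ⟨_, r2, r3⟩ := h
          constructor
          · exact le_trans (tail_est (c := N) _ (by nlinarith) (hB1 _)) hNe
          · exact le_trans (tail_est (c := N) _ (by nlinarith) (hB2 _)) hNe
        · have := h.1
          have : e'.1 + N ≤ e.1 := by exact_mod_cast this
          omega
      · have := hs0 e he
        rw [h2, if_neg (by omega)]
        simp only [Prod.fst_zero, Prod.snd_zero, mul_zero, norm_zero]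
        constructor <;> positivity
  set Y := |s'| * (a + b + h) with hY
  set ρ := η / 2 / Real.exp Y with hρ
  have hρ0 : 0 < ρ := by positivity
  have hρ1 : Real.exp Y * ρ = η / 2 := by rw [hρ]; field_simp
  refine ⟨z, Metric.mem_ball.2 (by linarith), ?_⟩
  rw [mem_interior_iff_mem_nhds, Metric.mem_nhds_iff]
  refine ⟨ρ, hρ0, fun w hw p hpK => ?_⟩
  obtain ⟨k, hk, hi⟩ := core p hpK
  obtain ⟨q1, q2, q3, q4⟩ := K_box hh.le hpK
  have hk' : (k : ℝ) ≤ |s'| := le_trans hk (le_abs_self _)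
  have hw' : ∀ m, ‖w m - z m‖ ≤ ρ := fun m =>
    le_trans (norm_sub_le_dist w z m) (Metric.mem_ball.1 hw).le
  refine ⟨k, fun i => ⟨?_, ?_⟩⟩
  · have := pert_est (Y := Y) (ρ := ρ) (z (i + k)).1 (w (i + k)).1 (t i).1
      (mul_le_mul hk' (by linarith) (by linarith) (abs_nonneg _))
      (le_trans (norm_fst_le (w (i + k) - z (i + k))) (hw' _)) (hi i).1
    linarith
  · have := pert_est (Y := Y) (ρ := ρ) (z (i + k)).2 (w (i + k)).2 (t i).2
      (mul_le_mul hk' (by linarith) (by linarith) (abs_nonneg _))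
      (le_trans (norm_snd_le (w (i + k) - z (i + k))) (hw' _)) (hi i).2
    linarith

/-- The countable family of targets. -/
noncomputable def target (x : Σ N : ℕ, Fin N → ℕ) (i : ℕ) : ℂ × ℂ :=
  if h : i < x.1 then TopologicalSpace.denseSeq (ℂ × ℂ) (x.2 ⟨i, h⟩) else 0

lemma target_approx (w : ℕ → ℂ × ℂ) (hw : Tendsto w atTop (𝓝 0)) {η : ℝ} (hη : 0 < η) :
    ∃ x, ∀ i, ‖target x i - w i‖ ≤ η := by
  have h1 : ∀ᶠ m : ℕ in atTop, ‖w m‖ ≤ η := by
    have := hw.norm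
    rw [norm_zero] at this
    exact this.eventually (ge_mem_nhds hη)
  obtain ⟨M, hM⟩ := eventually_atTop.1 h1
  have h2 : ∀ i, ∃ n, dist (w i) (TopologicalSpace.denseSeq (ℂ × ℂ) n) < η := fun i =>
    Metric.denseRange_iff.1 (TopologicalSpace.denseRange_denseSeq (ℂ × ℂ)) (w i) η hη
  choose g hg using h2
  refine ⟨⟨M, fun i => g i⟩, fun i => ?_⟩
  unfold target
  split_ifs with h
  · rw [← dist_eq_norm, dist_comm]
    exact (hg i).le
  · rw [zero_sub, norm_neg]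
    exact hM i (not_lt.1 h)

theorem common (a b h : ℝ) (ha : 0 < a) (hb : 0 < b) (hh : 0 < h) :
    ∃ x y : ℕ → ℂ, Tendsto x atTop (𝓝 0) ∧ Tendsto y atTop (𝓝 0) ∧
      ∀ lam mu : ℝ, (∃ ε : ℕ → Bool, lam = a + h * C ε) → (∃ δ : ℕ → Bool, mu = b + h * C δ) →
        ∀ u v : ℕ → ℂ, Tendsto u atTop (𝓝 0) → Tendsto v atTop (𝓝 0) →
          ∀ η : ℝ, 0 < η → ∃ k : ℕ, ∀ n : ℕ,
            ‖((Real.exp ((k : ℝ) * lam) : ℝ) : ℂ) * x (n + k) - u n‖ < η ∧
            ‖((Real.exp ((k : ℝ) * mu) : ℝ) : ℂ) * y (n + k) - v n‖ < η := by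
  have hd : Dense (⋂ j : (Σ N : ℕ, Fin N → ℕ) × ℕ,
      interior (U (K a b h) (target j.1) (1 / ((j.2 : ℝ) + 1)))) :=
    dense_iInter_of_isOpen (fun _ => isOpen_interior) (fun j =>
      dense_U ha hb hh (target j.1) j.1.1 (fun i hi => dif_neg (not_lt.2 hi)) (by positivity))
  obtain ⟨z, hz⟩ := hd.nonempty
  have hz0 := tendsto_C0 z
  refine ⟨fun m => (z m).1, fun m => (z m).2, (continuous_fst.tendsto 0).comp hz0,
    (continuous_snd.tendsto 0).comp hz0, ?_⟩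
  intro lam mu hl hm u v hu hv η hη
  obtain ⟨j, hj⟩ := exists_nat_one_div_lt (half_pos hη)
  obtain ⟨x, hx⟩ := target_approx (fun i => (u i, v i)) (hu.prodMk_nhds hv) (half_pos hη)
  have hU := interior_subset (Set.mem_iInter.1 hz (x, j))
  obtain ⟨k, hk⟩ := hU (lam, mu) ⟨hl, hm⟩
  refine ⟨k, fun n => ?_⟩
  obtain ⟨k1, k2⟩ := hk n
  have x1 : ‖(target x n).1 - u n‖ ≤ η / 2 := le_trans (norm_fst_le (target x n - (u n, v n))) (hx n)
  have x2 : ‖(target x n).2 - v n‖ ≤ η / 2 := le_trans (norm_snd_le (target x n - (u n, v n))) (hx n)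
  constructor
  · have := norm_sub_le_norm_sub_add_norm_sub
      (((Real.exp ((k : ℝ) * lam) : ℝ) : ℂ) * (z (n + k)).1) (target x n).1 (u n)
    simp only at k1 ⊢
    linarith
  · have := norm_sub_le_norm_sub_add_norm_sub
      (((Real.exp ((k : ℝ) * mu) : ℝ) : ℂ) * (z (n + k)).2) (target x n).2 (v n)
    simp only at k2 ⊢
    linarith

end Pool.Agent.H244Z.Dust
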