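import Mathlib

set_option autoImplicit false

namespace Pool.Agent.H244Z.MinPrimes

open CategoryTheory PowerSeries

/-- The abstract counterexample `R = S / (P ∩ Q)`, `N = R / f R`. -/
theorem abstract (S : Type) [CommRing S] [IsNoetherianRing S] [IsLocalRing S]
    (P Q T : Ideal S) [P.IsPrime] [Q.IsPrime] [T.IsPrime] (f : S) (hPT : P ≤ T) (hfT : f ∈ T)
    (hfP : f ∉ P) (hfQ : f ∉ Q) (hPQ : ¬ P ≤ Q) (hQT : ¬ Q ≤ T)
    (hT : ∀ q : Ideal S, Q ≤ q → f ∈ q → T ≤ q) :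
    ∃ (R : Type) (_ : CommRing R) (_ : IsNoetherianRing R) (_ : IsLocalRing R)
      (N : ModuleCat.{0} R) (_ : Module.Finite R N) (_ : Nontrivial N),
      projectiveDimension N = 1 ∧
      ∃ p ∈ minimalPrimes R, ∀ q ∈ (Module.annihilator R N).minimalPrimes, ¬ p ≤ q := by
  set I : Ideal S := P ⊓ Q with hI
  have hIne : I ≠ ⊤ := fun h => Ideal.IsPrime.ne_top ‹P.IsPrime› (top_le_iff.1 (h ▸ inf_le_left))
  have : Nontrivial (S ⧸ I) := Ideal.Quotient.nontrivial_iff.2 hIne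
  have : IsLocalRing (S ⧸ I) := IsLocalRing.of_surjective' (Ideal.Quotient.mk I)
    Ideal.Quotient.mk_surjective
  set π := Ideal.Quotient.mk I with hπ
  have hsurj : Function.Surjective π := Ideal.Quotient.mk_surjective
  have hker : RingHom.ker π = I := Ideal.mk_ker
  have hIT : I ≤ T := le_trans inf_le_left hPT
  have hTp : (T.map π).IsPrime := Ideal.map_isPrime_of_surjective hsurj (by rw [hker]; exact hIT)
  have hQp : (Q.map π).IsPrime :=
    Ideal.map_isPrime_of_surjective hsurj (by rw [hker]; exact inf_le_right)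
  have cT : (T.map π).comap π = T := by
    rw [Ideal.comap_map_of_surjective π hsurj, ← RingHom.ker_eq_comap_bot, hker]
    exact sup_eq_left.2 hIT
  have cQ : (Q.map π).comap π = Q := by
    rw [Ideal.comap_map_of_surjective π hsurj, ← RingHom.ker_eq_comap_bot, hker]
    exact sup_eq_left.2 inf_le_right
  have hmem : π f ∈ IsLocalRing.maximalIdeal (S ⧸ I) :=
    IsLocalRing.le_maximalIdeal hTp.ne_top (Ideal.mem_map_of_mem π hfT)
  have hreg : IsSMulRegular (S ⧸ I) (π f) := by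
    rw [isSMulRegular_iff_right_eq_zero_of_smul]
    intro g hg
    obtain ⟨g, rfl⟩ := hsurj g
    rw [smul_eq_mul, ← map_mul, Ideal.Quotient.eq_zero_iff_mem] at hg
    rw [Ideal.Quotient.eq_zero_iff_mem]
    exact ⟨(Ideal.IsPrime.mem_or_mem ‹P.IsPrime› hg.1).resolve_left hfP,
      (Ideal.IsPrime.mem_or_mem ‹Q.IsPrime› hg.2).resolve_left hfQ⟩
  have hpd := ModuleCat.projectiveDimension_quotSMulTop_eq_succ_of_isSMulRegular
    (ModuleCat.of (S ⧸ I) (S ⧸ I)) (π f) hreg hmem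
  have hpd0 : projectiveDimension (ModuleCat.of (S ⧸ I) (S ⧸ I)) = 0 := by
    rw [projectiveDimension_eq_zero_iff]
    refine ⟨inferInstance, ?_⟩
    rw [ModuleCat.isZero_iff_subsingleton]
    exact not_subsingleton (S ⧸ I)
  have : Nontrivial (QuotSMulTop (π f) (S ⧸ I)) :=
    nontrivial_quotSMulTop_of_mem_maximalIdeal (S ⧸ I) hmem
  have hann : Module.annihilator (S ⧸ I) (QuotSMulTop (π f) (S ⧸ I)) ≤ T.map π := by
    intro r hr
    have h1 := Module.mem_annihilator.1 hr (Submodule.Quotient.mk 1)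
    rw [← Submodule.Quotient.mk_smul, Submodule.Quotient.mk_eq_zero, smul_eq_mul, mul_one,
      Submodule.mem_smul_pointwise_iff_exists] at h1
    obtain ⟨b, _, hb⟩ := h1
    rw [← hb, smul_eq_mul]
    exact Ideal.mul_mem_right _ _ (Ideal.mem_map_of_mem π hfT)
  refine ⟨S ⧸ I, inferInstance, inferInstance, inferInstance,
    ModuleCat.of (S ⧸ I) (QuotSMulTop (π f) (S ⧸ I)), inferInstance, inferInstance, ?_,
    Q.map π, ?_, ?_⟩
  · rw [hpd0, zero_add] at hpd
    exact hpd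
  · refine ⟨⟨hQp, bot_le⟩, ?_⟩
    rintro q ⟨hq, _⟩ hle
    have h1 : I ≤ q.comap π := le_trans hker.ge (Ideal.ker_le_comap π)
    have h2 : q.comap π ≤ Q := by rw [← cQ]; exact Ideal.comap_mono hle
    rcases (Ideal.IsPrime.inf_le inferInstance).1 h1 with h | h
    · exact absurd (le_trans h h2) hPQ
    · exact Ideal.map_le_iff_le_comap.2 h
  · intro q hq hle
    have h1 : Q ≤ q.comap π := Ideal.map_le_iff_le_comap.1 hle
    have h2 : f ∈ q.comap π := hq.1.2 (QuotSMulTop.mem_annihilator (S ⧸ I) (π f))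
    have h3 : T.map π ≤ q := Ideal.map_le_iff_le_comap.2 (hT _ h1 h2)
    have h4 : q ≤ T.map π := hq.2 ⟨hTp, hann⟩ h3
    apply hQT
    rw [← cT]
    exact le_trans h1 (Ideal.comap_mono h4)

theorem main :
    ∃ (R : Type) (_ : CommRing R) (_ : IsNoetherianRing R) (_ : IsLocalRing R)
      (N : ModuleCat.{0} R) (_ : Module.Finite R N) (_ : Nontrivial N),
      projectiveDimension N = 1 ∧
      ∃ p ∈ minimalPrimes R, ∀ q ∈ (Module.annihilator R N).minimalPrimes, ¬ p ≤ q := by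
  let φ : ℚ⟦X⟧⟦X⟧ →+* ℚ := (constantCoeff (R := ℚ)).comp (constantCoeff (R := ℚ⟦X⟧))
  let c : ℚ⟦X⟧⟦X⟧⟦X⟧ →+* ℚ⟦X⟧⟦X⟧ := constantCoeff
  let d : ℚ⟦X⟧⟦X⟧ →+* ℚ⟦X⟧ := constantCoeff
  have : (RingHom.ker c).IsPrime := RingHom.ker_isPrime _
  have : (RingHom.ker (PowerSeries.map φ)).IsPrime := RingHom.ker_isPrime _
  have : (RingHom.ker (d.comp c)).IsPrime := RingHom.ker_isPrime _
  have hφX : φ X = 0 := by simp [φ]
  refine abstract ℚ⟦X⟧⟦X⟧⟦X⟧ (RingHom.ker c) (RingHom.ker (PowerSeries.map φ))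
    (RingHom.ker (d.comp c)) (X - C X) ?_ ?_ ?_ ?_ ?_ ?_ ?_
  · intro g hg
    rw [RingHom.mem_ker] at hg ⊢
    rw [RingHom.comp_apply, hg, map_zero]
  · simp [RingHom.mem_ker, c, d]
  · simp [RingHom.mem_ker, c, X_ne_zero]
  · simp [RingHom.mem_ker, hφX, X_ne_zero]
  · intro h
    have := h (show (X : ℚ⟦X⟧⟦X⟧⟦X⟧) ∈ RingHom.ker c by simp [RingHom.mem_ker, c])
    simp [RingHom.mem_ker, X_ne_zero] at this
  · intro h
    have := h (show (C (C X) : ℚ⟦X⟧⟦X⟧⟦X⟧) ∈ RingHom.ker (PowerSeries.map φ) by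
      simp [RingHom.mem_ker, φ])
    simp [RingHom.mem_ker, c, d, X_ne_zero] at this
  · intro q hQ hf g hg
    have hC : ∀ b : ℚ⟦X⟧⟦X⟧, d b = 0 → (C b : ℚ⟦X⟧⟦X⟧⟦X⟧) ∈ q := by
      intro b hb
      apply hQ
      have : φ b = 0 := by
        change constantCoeff (d b) = 0
        rw [hb, map_zero]
      simp [RingHom.mem_ker, this]
    have hX : (X : ℚ⟦X⟧⟦X⟧⟦X⟧) ∈ q := by
      have := q.add_mem hf (hC X (by simp [d]))
      simpa using this
    rw [eq_X_mul_shift_add_const g]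
    exact q.add_mem (q.mul_mem_right _ hX) (hC _ hg)

end Pool.Agent.H244Z.MinPrimes
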